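import Pool.Agent.Helper88_DK.Near

/-!
# DK, module LEV: the Levi form near the boundary
-/

set_option autoImplicit false

namespace Pool.Agent.DK.H88

open MeasureTheory Complex Set Metric
open scoped ContDiff Topology

variable {n : ℕ} {ρ : E n → ℝ} {κ₀ : ℝ}

theorem norm_sq_le_nsq (w : E n) : ‖w‖ ^ 2 ≤ nsq w := by
  have h0 : 0 ≤ nsq w := Finset.sum_nonneg fun j _ => sq_nonneg _
  have h1 : ‖w‖ ≤ Real.sqrt (nsq w) := by
    refine (pi_norm_le_iff_of_nonneg (Real.sqrt_nonneg _)).2 fun j => ?_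
    refine Real.le_sqrt_of_sq_le ?_
    exact Finset.single_le_sum (f := fun j => ‖w j‖ ^ 2) (fun j _ => sq_nonneg _)
      (Finset.mem_univ j)
  calc ‖w‖ ^ 2 ≤ Real.sqrt (nsq w) ^ 2 := by gcongr
    _ = nsq w := Real.sq_sqrt h0

theorem norm_le_sqrt_nsq (w : E n) : ‖w‖ ≤ Real.sqrt (nsq w) :=
  Real.le_sqrt_of_sq_le (norm_sq_le_nsq w)

theorem norm_I_smul (w : E n) : ‖(I : ℂ) • w‖ = ‖w‖ := by
  rw [norm_smul, Complex.norm_I, one_mul]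

theorem norm_dl_le (f : E n → ℝ) (z w : E n) : ‖dl f z w‖ ≤ ‖fderiv ℝ f z‖ * ‖w‖ := by
  unfold dl
  have h1 : ‖((fderiv ℝ f z w : ℝ) : ℂ)‖ ≤ ‖fderiv ℝ f z‖ * ‖w‖ := by
    rw [Complex.norm_real]; exact (fderiv ℝ f z).le_opNorm w
  have h2 : ‖I * ((fderiv ℝ f z (I • w) : ℝ) : ℂ)‖ ≤ ‖fderiv ℝ f z‖ * ‖w‖ := by
    rw [norm_mul, Complex.norm_I, one_mul, Complex.norm_real]
    have := (fderiv ℝ f z).le_opNorm (I • w)
    rwa [norm_I_smul] at this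
  have h3 := norm_sub_le ((fderiv ℝ f z w : ℝ) : ℂ) (I * ((fderiv ℝ f z (I • w) : ℝ) : ℂ))
  rw [norm_div]
  have : ‖(2 : ℂ)‖ = 2 := by simp
  rw [this]
  linarith

theorem norm_dl_sub_le (f : E n → ℝ) (z q w : E n) :
    ‖dl f z w - dl f q w‖ ≤ ‖fderiv ℝ f z - fderiv ℝ f q‖ * ‖w‖ := by
  have e : dl f z w - dl f q w = (((fderiv ℝ f z - fderiv ℝ f q) w : ℝ) -
      I * (((fderiv ℝ f z - fderiv ℝ f q) (I • w) : ℝ) : ℂ)) / 2 := by
    unfold dl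
    simp only [_root_.sub_apply]
    push_cast
    ring
  rw [e]
  have h1 : ‖(((fderiv ℝ f z - fderiv ℝ f q) w : ℝ) : ℂ)‖ ≤ ‖fderiv ℝ f z - fderiv ℝ f q‖ * ‖w‖ := by
    rw [Complex.norm_real]; exact (fderiv ℝ f z - fderiv ℝ f q).le_opNorm w
  have h2 : ‖I * (((fderiv ℝ f z - fderiv ℝ f q) (I • w) : ℝ) : ℂ)‖ ≤
      ‖fderiv ℝ f z - fderiv ℝ f q‖ * ‖w‖ := by
    rw [norm_mul, Complex.norm_I, one_mul, Complex.norm_real]
    have := (fderiv ℝ f z - fderiv ℝ f q).le_opNorm (I • w)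
    rwa [norm_I_smul] at this
  have h3 := norm_sub_le ((((fderiv ℝ f z - fderiv ℝ f q) w : ℝ) : ℂ))
    (I * (((fderiv ℝ f z - fderiv ℝ f q) (I • w) : ℝ) : ℂ))
  rw [norm_div]
  have : ‖(2 : ℂ)‖ = 2 := by simp
  rw [this]
  linarith

theorem dl_add (f : E n → ℝ) (z v w : E n) : dl f z (v + w) = dl f z v + dl f z w := by
  unfold dl
  rw [smul_add, map_add, map_add]
  push_cast
  ring

theorem smul_eq_re_im (a : ℂ) (w : E n) : a • w = (a.re : ℝ) • w + (a.im : ℝ) • (I • w) := by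
  funext j
  simp only [Pi.smul_apply, Pi.add_apply, smul_eq_mul, Complex.real_smul]
  conv_lhs => rw [← Complex.re_add_im a]
  ring

theorem dl_smul (f : E n → ℝ) (z w : E n) (a : ℂ) : dl f z (a • w) = a * dl f z w := by
  have hI : I • (I • w) = -w := by
    rw [smul_smul, Complex.I_mul_I, neg_one_smul]
  have h1 : I • (a • w) = (a.re : ℝ) • (I • w) - (a.im : ℝ) • w := by
    rw [smul_eq_re_im a w, smul_add, smul_comm I (a.re) w, smul_comm I (a.im) (I • w), hI,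
      smul_neg, sub_eq_add_neg]
  have h2 := smul_eq_re_im a w
  unfold dl
  rw [h1, h2, map_add, map_sub, (fderiv ℝ f z).map_smul a.re w, (fderiv ℝ f z).map_smul a.re (I • w),
    (fderiv ℝ f z).map_smul a.im w, (fderiv ℝ f z).map_smul a.im (I • w)]
  simp only [smul_eq_mul]
  push_cast
  conv_rhs => rw [← Complex.re_add_im a]
  have : I * I = -1 := Complex.I_mul_I
  linear_combination ((a.im : ℂ) * (fderiv ℝ f z (I • w) : ℂ) / 2) * this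

theorem fderiv_zero_of_dl (f : E n → ℝ) (z w : E n) (h : dl f z w = 0) :
    fderiv ℝ f z w = 0 ∧ fderiv ℝ f z (I • w) = 0 := by
  unfold dl at h
  have h1 : ((fderiv ℝ f z w : ℝ) : ℂ) - I * ((fderiv ℝ f z (I • w) : ℝ) : ℂ) = 0 := by
    have := (div_eq_zero_iff.1 h)
    rcases this with h | h
    · exact h
    · norm_num at h
  constructor
  · have := congrArg Complex.re h1
    simpa using this
  · have := congrArg Complex.im h1
    simpa using this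

theorem bd_lip {F : Type*} [NormedAddCommGroup F] [NormedSpace ℝ F] (g : E n → F)
    (hg : ContDiff ℝ ∞ g) (hs : HasCompactSupport g) :
    ∃ M : ℝ, 0 < M ∧ (∀ z, ‖g z‖ ≤ M) ∧ ∀ z w, ‖g z - g w‖ ≤ M * ‖z - w‖ := by
  obtain ⟨M₀, h0⟩ := hs.exists_bound_of_continuous hg.continuous
  obtain ⟨M₃, h3⟩ := hg.lipschitzWith_of_hasCompactSupport hs (by simp)
  have h5 : (0 : ℝ) ≤ (M₃ : ℝ) := M₃.coe_nonneg
  have h6 := abs_nonneg M₀
  refine ⟨|M₀| + M₃ + 1, by linarith, fun z => ?_, fun z w => ?_⟩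
  · have := h0 z
    have := le_abs_self M₀
    linarith
  · have h4 := h3.dist_le_mul z w
    rw [dist_eq_norm, dist_eq_norm] at h4
    exact h4.trans (mul_le_mul_of_nonneg_right (by linarith) (norm_nonneg _))

theorem fderiv_two_props (h : Nice n ρ κ₀) :
    HasCompactSupport (fderiv ℝ (fderiv ℝ ρ)) ∧ ContDiff ℝ ∞ (fderiv ℝ (fderiv ℝ ρ)) :=
  ⟨(fderiv_hasCompactSupport h).fderiv (𝕜 := ℝ), (contDiff_fderiv h).fderiv_right (m := ∞) (by simp)⟩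

/-- bounded and Lipschitz second derivative -/
theorem exists_bd2 (h : Nice n ρ κ₀) : ∃ M : ℝ, 0 < M ∧ (∀ z, ‖fderiv ℝ ρ z‖ ≤ M) ∧
    (∀ z w : E n, ‖fderiv ℝ ρ z - fderiv ℝ ρ w‖ ≤ M * ‖z - w‖) ∧
    (∀ z, ‖fderiv ℝ (fderiv ℝ ρ) z‖ ≤ M) ∧
    (∀ z w, ‖fderiv ℝ (fderiv ℝ ρ) z - fderiv ℝ (fderiv ℝ ρ) w‖ ≤ M * ‖z - w‖) := by
  obtain ⟨M₁, hM₁, h1, h2⟩ := bd_lip (fderiv ℝ ρ) (contDiff_fderiv h) (fderiv_hasCompactSupport h)
  obtain ⟨hs2, hd2⟩ := fderiv_two_props h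
  obtain ⟨M₂, hM₂, h3, h4⟩ := bd_lip (fderiv ℝ (fderiv ℝ ρ)) hd2 hs2
  refine ⟨M₁ + M₂, by linarith, fun z => (h1 z).trans (by linarith), fun z w => (h2 z w).trans
    (mul_le_mul_of_nonneg_right (by linarith) (norm_nonneg _)), fun z => (h3 z).trans
    (by linarith), fun z w => (h4 z w).trans
    (mul_le_mul_of_nonneg_right (by linarith) (norm_nonneg _))⟩

theorem Lv_eq (f : E n → ℝ) (z w : E n) : Lv f z w =
    (fderiv ℝ (fderiv ℝ f) z w w + fderiv ℝ (fderiv ℝ f) z (I • w) (I • w)) / 4 := by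
  unfold Lv
  rw [iteratedFDeriv_two_apply, iteratedFDeriv_two_apply]
  simp

theorem bil_le (B : E n →L[ℝ] E n →L[ℝ] ℝ) (u v : E n) : |B u v| ≤ ‖B‖ * ‖u‖ * ‖v‖ :=
  B.le_opNorm₂ u v

theorem bil_diff (B : E n →L[ℝ] E n →L[ℝ] ℝ) (w w' : E n) :
    |B w w - B w' w'| ≤ ‖B‖ * ‖w - w'‖ * (‖w‖ + ‖w'‖) := by
  have e : B w w - B w' w' = B (w - w') w + B w' (w - w') := by
    simp only [map_sub, _root_.sub_apply]; ring
  rw [e]
  have h1 := bil_le B (w - w') w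
  have h2 := bil_le B w' (w - w')
  have h3 := abs_add_le (B (w - w') w) (B w' (w - w'))
  nlinarith

theorem lev (hN : NearStmt) (_ : LcStmt) : LevStmt := by
  intro n hn ρ κ₀ h
  obtain ⟨CN, κN, hCN, hκN, hκN', hnear⟩ := hN n hn ρ κ₀ h
  obtain ⟨c, hc, hcl⟩ := exists_grad_lower h
  obtain ⟨M, hM, hM0, hM1, hM2, hM3⟩ := exists_bd2 h
  -- final constant
  set a : ℝ := 4 / c with ha
  have hapos : 0 < a := by positivity
  -- `‖α‖ ≤ a ‖dl ρ q w‖`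
  set K : ℝ := M * a * (2 + M * a) with hK
  have hKpos : 0 < K := by positivity
  refine ⟨M * CN + K * M * CN + K + 1, κN, by positivity, hκN, hκN', fun z hz w => ?_⟩
  obtain ⟨q, hq0, hq⟩ := hnear z hz
  -- a good direction at `q`
  obtain ⟨v, hv1, hv2⟩ : ∃ v : E n, ‖v‖ ≤ 1 ∧ c / 4 ≤ ‖dl ρ q v‖ := by
    have hcq : c ≤ ‖fderiv ℝ ρ q‖ := hcl q (by rw [hq0, abs_zero]; linarith [h.pos])
    obtain ⟨x, hx1, hx2⟩ := (fderiv ℝ ρ q).exists_lt_apply_of_lt_opNorm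
      (r := c / 2) (by linarith)
    refine ⟨x, hx1.le, ?_⟩
    have h1 : (dl ρ q x).re = fderiv ℝ ρ q x / 2 := by
      unfold dl
      simp
    have h2 := Complex.abs_re_le_norm (dl ρ q x)
    rw [h1, abs_div, abs_two, ← Real.norm_eq_abs] at h2
    linarith
  have hdv : dl ρ q v ≠ 0 := by
    intro h0; rw [h0, norm_zero] at hv2; linarith
  set α : ℂ := dl ρ q w / dl ρ q v with hα
  have hαn : ‖α‖ ≤ a * ‖dl ρ q w‖ := by
    rw [hα, norm_div, div_le_iff₀ (norm_pos_iff.2 hdv), ha]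
    have h1 : 1 ≤ 4 / c * ‖dl ρ q v‖ := by
      rw [div_mul_eq_mul_div, le_div_iff₀ hc]; linarith
    calc ‖dl ρ q w‖ = ‖dl ρ q w‖ * 1 := by ring
      _ ≤ ‖dl ρ q w‖ * (4 / c * ‖dl ρ q v‖) := by gcongr
      _ = 4 / c * ‖dl ρ q w‖ * ‖dl ρ q v‖ := by ring
  set w' : E n := w + (-α) • v with hw'
  have hdw' : dl ρ q w' = 0 := by
    rw [hw', dl_add, dl_smul, hα]
    field_simp
    ring
  obtain ⟨hf1, hf2⟩ := fderiv_zero_of_dl ρ q w' hdw'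
  have hlev := h.levi q hq0 w' hf1 hf2
  have hLv' : 0 ≤ Lv ρ q w' := by unfold Lv; linarith
  -- sizes
  have hww' : w - w' = α • v := by rw [hw', neg_smul]; abel
  have hn1 : ‖w - w'‖ ≤ ‖α‖ := by
    rw [hww', norm_smul]
    nlinarith [norm_nonneg α, norm_nonneg v]
  have hdlw : ‖dl ρ q w‖ ≤ M * ‖w‖ :=
    (norm_dl_le ρ q w).trans (mul_le_mul_of_nonneg_right (hM0 q) (norm_nonneg _))
  have hαn2 : ‖α‖ ≤ a * M * ‖w‖ := by
    calc ‖α‖ ≤ a * ‖dl ρ q w‖ := hαn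
      _ ≤ a * (M * ‖w‖) := by gcongr
      _ = a * M * ‖w‖ := by ring
  have hn2 : ‖w'‖ ≤ (1 + M * a) * ‖w‖ := by
    have e : w' = w - (w - w') := by abel
    rw [e]
    refine (norm_sub_le _ _).trans ?_
    have := hn1.trans hαn2
    linarith
  have hzq : ‖z - q‖ ≤ CN * |ρ z| := hq
  have hdlq : ‖dl ρ q w‖ ≤ ‖dl ρ z w‖ + M * CN * |ρ z| * ‖w‖ := by
    have h1 := norm_dl_sub_le ρ z q w
    have h2 : ‖dl ρ q w‖ ≤ ‖dl ρ z w‖ + ‖dl ρ z w - dl ρ q w‖ := by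
      have e : dl ρ q w = dl ρ z w - (dl ρ z w - dl ρ q w) := by ring
      calc ‖dl ρ q w‖ = ‖dl ρ z w - (dl ρ z w - dl ρ q w)‖ := by rw [← e]
        _ ≤ _ := norm_sub_le _ _
    have h3 : ‖fderiv ℝ ρ z - fderiv ℝ ρ q‖ ≤ M * (CN * |ρ z|) :=
      (hM1 z q).trans (mul_le_mul_of_nonneg_left hzq hM.le)
    have h4 : ‖fderiv ℝ ρ z - fderiv ℝ ρ q‖ * ‖w‖ ≤ M * (CN * |ρ z|) * ‖w‖ :=
      mul_le_mul_of_nonneg_right h3 (norm_nonneg _)
    linarith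
  -- comparison of Levi forms at `z` and `q`
  have hA : Lv ρ q w - M * CN * |ρ z| * ‖w‖ ^ 2 ≤ Lv ρ z w := by
    rw [Lv_eq, Lv_eq]
    have hD : ‖fderiv ℝ (fderiv ℝ ρ) z - fderiv ℝ (fderiv ℝ ρ) q‖ ≤ M * (CN * |ρ z|) :=
      (hM3 z q).trans (mul_le_mul_of_nonneg_left hzq hM.le)
    have h1 := bil_le (fderiv ℝ (fderiv ℝ ρ) z - fderiv ℝ (fderiv ℝ ρ) q) w w
    have h2 := bil_le (fderiv ℝ (fderiv ℝ ρ) z - fderiv ℝ (fderiv ℝ ρ) q) (I • w) (I • w)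
    rw [norm_I_smul] at h2
    simp only [_root_.sub_apply] at h1 h2
    have h3 : ‖fderiv ℝ (fderiv ℝ ρ) z - fderiv ℝ (fderiv ℝ ρ) q‖ * ‖w‖ * ‖w‖ ≤
        M * (CN * |ρ z|) * ‖w‖ ^ 2 := by
      have := mul_le_mul_of_nonneg_right hD (sq_nonneg ‖w‖)
      linarith [this]
    have h4 := (abs_le.1 (h1.trans h3)).1
    have h5 := (abs_le.1 (h2.trans h3)).1
    have h6 : 0 ≤ M * CN * |ρ z| * ‖w‖ ^ 2 := by positivity
    linarith
  -- comparison at `q` of `w` and `w'`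
  have hB : Lv ρ q w' - M * a * ‖dl ρ q w‖ * ((2 + M * a) * ‖w‖) ≤ Lv ρ q w := by
    rw [Lv_eq, Lv_eq]
    have h1 := bil_diff (fderiv ℝ (fderiv ℝ ρ) q) w w'
    have h2 := bil_diff (fderiv ℝ (fderiv ℝ ρ) q) (I • w) (I • w')
    rw [← smul_sub, norm_I_smul, norm_I_smul, norm_I_smul] at h2
    have h3 : ‖fderiv ℝ (fderiv ℝ ρ) q‖ * ‖w - w'‖ * (‖w‖ + ‖w'‖) ≤
        M * (a * ‖dl ρ q w‖) * ((2 + M * a) * ‖w‖) := by
      have h7 : ‖w - w'‖ ≤ a * ‖dl ρ q w‖ := hn1.trans hαn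
      have h8 : ‖w‖ + ‖w'‖ ≤ (2 + M * a) * ‖w‖ := by linarith
      have h9 := hM2 q
      gcongr
    have h4 := (abs_le.1 (h1.trans h3)).1
    have h5 := (abs_le.1 (h2.trans h3)).1
    have h6 : 0 ≤ M * (a * ‖dl ρ q w‖) * ((2 + M * a) * ‖w‖) := by positivity
    linarith
  have hC : M * a * ‖dl ρ q w‖ * ((2 + M * a) * ‖w‖) ≤
      K * ‖dl ρ z w‖ * ‖w‖ + K * M * CN * |ρ z| * ‖w‖ ^ 2 := by
    have h1 : M * a * ‖dl ρ q w‖ * ((2 + M * a) * ‖w‖) = K * ‖dl ρ q w‖ * ‖w‖ := by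
      rw [hK]; ring
    rw [h1]
    calc K * ‖dl ρ q w‖ * ‖w‖ ≤ K * (‖dl ρ z w‖ + M * CN * |ρ z| * ‖w‖) * ‖w‖ := by gcongr
      _ = _ := by ring
  have hw1 : ‖w‖ ^ 2 ≤ nsq w := norm_sq_le_nsq w
  have hw2 := norm_le_sqrt_nsq w
  have hns : 0 ≤ nsq w := (sq_nonneg _).trans hw1
  have t1 : (M * CN + K * M * CN) * |ρ z| * ‖w‖ ^ 2 ≤
      (M * CN + K * M * CN + K + 1) * |ρ z| * nsq w := by
    have : (M * CN + K * M * CN) * |ρ z| ≤ (M * CN + K * M * CN + K + 1) * |ρ z| :=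
      mul_le_mul_of_nonneg_right (by linarith) (abs_nonneg _)
    exact mul_le_mul this hw1 (sq_nonneg _) (by positivity)
  have t2 : K * ‖dl ρ z w‖ * ‖w‖ ≤
      (M * CN + K * M * CN + K + 1) * ‖dl ρ z w‖ * Real.sqrt (nsq w) := by
    have : K * ‖dl ρ z w‖ ≤ (M * CN + K * M * CN + K + 1) * ‖dl ρ z w‖ :=
      mul_le_mul_of_nonneg_right (by
        have : 0 < M * CN := by positivity
        have : 0 < K * M * CN := by positivity
        linarith) (norm_nonneg _)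
    exact mul_le_mul this hw2 (norm_nonneg _) (by positivity)
  linarith

end Pool.Agent.DK.H88
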