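import Pool.Agent.Helper14_DK.Stmts

/-!
# DK, module NEAR: points near the boundary have a boundary point at comparable distance
-/

set_option autoImplicit false

namespace Pool.Agent.DK.H88

open MeasureTheory Complex Set Metric
open scoped ContDiff Topology

variable {n : ℕ} {ρ : E n → ℝ} {κ₀ : ℝ}

theorem tsupport_fderiv_nice {z : E n} (hz : z ∉ tsupport (fun z => 1 - ρ z)) :
    fderiv ℝ ρ z = 0 := by
  have h1 : z ∉ tsupport (fderiv ℝ (fun z => 1 - ρ z)) := fun h' => hz (tsupport_fderiv_subset ℝ h')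
  have h2 := image_eq_zero_of_notMem_tsupport h1
  rw [fderiv_const_sub] at h2
  exact neg_eq_zero.1 h2

theorem fderiv_hasCompactSupport (h : Nice n ρ κ₀) : HasCompactSupport (fderiv ℝ ρ) :=
  HasCompactSupport.intro' h.cpt (isClosed_tsupport _) fun _ hz => tsupport_fderiv_nice hz

theorem contDiff_fderiv (h : Nice n ρ κ₀) : ContDiff ℝ ∞ (fderiv ℝ ρ) :=
  h.smooth.fderiv_right (by simp)

theorem isCompact_level (h : Nice n ρ κ₀) {c : ℝ} (hc : c < 1) : IsCompact {z : E n | |ρ z| ≤ c} := by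
  have hcl : IsClosed {z : E n | |ρ z| ≤ c} := isClosed_le h.smooth.continuous.abs continuous_const
  refine IsCompact.of_isClosed_subset h.cpt hcl fun z hz => ?_
  by_contra hz'
  have h1 := image_eq_zero_of_notMem_tsupport hz'
  have h2 : ρ z = 1 := by linarith
  have h3 : |ρ z| ≤ c := hz
  rw [h2, abs_one] at h3
  linarith

theorem exists_grad_lower (h : Nice n ρ κ₀) :
    ∃ c : ℝ, 0 < c ∧ ∀ z : E n, |ρ z| ≤ κ₀ / 2 → c ≤ ‖fderiv ℝ ρ z‖ := by
  have hc := isCompact_level h (c := κ₀ / 2) (by linarith [h.lt_one, h.pos])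
  rcases ({z : E n | |ρ z| ≤ κ₀ / 2}).eq_empty_or_nonempty with he | hne
  · refine ⟨1, one_pos, fun z hz => ?_⟩
    exact absurd (show z ∈ {z : E n | |ρ z| ≤ κ₀ / 2} from hz) (by rw [he]; exact notMem_empty z)
  · obtain ⟨z₀, hz₀, hmin⟩ := hc.exists_isMinOn hne
      ((contDiff_fderiv h).continuous.norm.continuousOn)
    refine ⟨‖fderiv ℝ ρ z₀‖, norm_pos_iff.2 (h.reg z₀ ?_), fun z hz => hmin hz⟩
    have : |ρ z₀| ≤ κ₀ / 2 := hz₀
    linarith [h.pos]

theorem exists_lip_fderiv (h : Nice n ρ κ₀) :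
    ∃ M : ℝ, 0 < M ∧ ∀ z w : E n, ‖fderiv ℝ ρ z - fderiv ℝ ρ w‖ ≤ M * ‖z - w‖ := by
  obtain ⟨C, hC⟩ := (contDiff_fderiv h).lipschitzWith_of_hasCompactSupport
    (fderiv_hasCompactSupport h) (by simp)
  refine ⟨C + 1, by positivity, fun z w => ?_⟩
  have h1 := hC.dist_le_mul z w
  rw [dist_eq_norm, dist_eq_norm] at h1
  nlinarith [norm_nonneg (z - w)]

/-- one sided version -/
theorem near_aux {f : E n → ℝ} (hf : Differentiable ℝ f) {M c : ℝ} (hM : 0 < M) (hc : 0 < c)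
    (hL : ∀ z w : E n, ‖fderiv ℝ f z - fderiv ℝ f w‖ ≤ M * ‖z - w‖) {z : E n} (hz : 0 ≤ f z)
    (hg : c ≤ ‖fderiv ℝ f z‖) (hs : M * (4 / c * f z) ≤ c / 4) :
    ∃ q, f q = 0 ∧ ‖z - q‖ ≤ 4 / c * f z := by
  -- direction
  obtain ⟨v, hv1, hv2⟩ : ∃ v : E n, ‖v‖ ≤ 1 ∧ c / 2 ≤ fderiv ℝ f z v := by
    obtain ⟨x, hx1, hx2⟩ := (fderiv ℝ f z).exists_lt_apply_of_lt_opNorm
      (r := c / 2) (by linarith)
    rw [Real.norm_eq_abs] at hx2
    rcases abs_cases (fderiv ℝ f z x) with ⟨h1, _⟩ | ⟨h1, _⟩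
    · exact ⟨x, hx1.le, by linarith⟩
    · refine ⟨-x, by rw [norm_neg]; exact hx1.le, ?_⟩
      rw [map_neg]; linarith
  set s₁ : ℝ := 4 / c * f z with hs₁
  have hs0 : 0 ≤ s₁ := by positivity
  -- Taylor
  have hT : ∀ s : ℝ, 0 ≤ s → f (z - s • v) ≤ f z - s * (c / 2) + M * s ^ 2 := by
    intro s hs
    have hconv : Convex ℝ (closedBall z s) := convex_closedBall z s
    have hmem : z - s • v ∈ closedBall z s := by
      rw [mem_closedBall, dist_eq_norm]
      have : z - s • v - z = -(s • v) := by abel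
      rw [this, norm_neg, norm_smul, Real.norm_eq_abs, abs_of_nonneg hs]
      nlinarith
    have hb := hconv.norm_image_sub_le_of_norm_fderiv_le' (𝕜 := ℝ) (f := f) (C := M * s)
      (φ := fderiv ℝ f z) (x := z) (y := z - s • v)
      (fun x _ => hf x) (fun x hx => by
        refine (hL x z).trans ?_
        rw [mem_closedBall, dist_eq_norm] at hx
        exact mul_le_mul_of_nonneg_left hx hM.le) (mem_closedBall_self hs) hmem
    have e1 : z - s • v - z = -(s • v) := by abel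
    rw [e1, map_neg, map_smul, norm_neg, norm_smul, Real.norm_eq_abs, Real.norm_eq_abs,
      abs_of_nonneg hs, smul_eq_mul] at hb
    have h2 := le_abs_self (f (z - s • v) - f z - -(s * fderiv ℝ f z v))
    have h3 : M * s * (s * ‖v‖) ≤ M * s ^ 2 := by
      have : s * ‖v‖ ≤ s := by nlinarith
      calc M * s * (s * ‖v‖) ≤ M * s * s := by gcongr
        _ = M * s ^ 2 := by ring
    have h4 : s * (c / 2) ≤ s * fderiv ℝ f z v := mul_le_mul_of_nonneg_left hv2 hs
    linarith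
  have hend : f (z - s₁ • v) ≤ 0 := by
    have h1 := hT s₁ hs0
    have h2 : M * s₁ ^ 2 ≤ c / 4 * s₁ := by
      have := mul_le_mul_of_nonneg_right hs hs0
      calc M * s₁ ^ 2 = M * s₁ * s₁ := by ring
        _ ≤ c / 4 * s₁ := this
    have h3 : c / 4 * s₁ = f z := by rw [hs₁]; field_simp
    linarith
  -- intermediate value
  have hcont : ContinuousOn (fun s : ℝ => f (z - s • v)) (Icc 0 s₁) :=
    (hf.continuous.comp (continuous_const.sub (continuous_id.smul continuous_const))).continuousOn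
  have hiv := intermediate_value_Icc' hs0 hcont
  have h0 : (0 : ℝ) ∈ Icc (f (z - s₁ • v)) (f (z - (0 : ℝ) • v)) := by
    refine ⟨hend, ?_⟩
    simpa using hz
  obtain ⟨s, ⟨hsa, hsb⟩, hs2⟩ := hiv h0
  refine ⟨z - s • v, hs2, ?_⟩
  have : z - (z - s • v) = s • v := by abel
  rw [this, norm_smul, Real.norm_eq_abs, abs_of_nonneg hsa]
  nlinarith

theorem near : NearStmt := by
  intro n _ ρ κ₀ h
  obtain ⟨c, hc, hcl⟩ := exists_grad_lower h
  obtain ⟨M, hM, hML⟩ := exists_lip_fderiv h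
  have hd : Differentiable ℝ ρ := h.smooth.differentiable (by simp)
  refine ⟨4 / c, min (κ₀ / 2) (c ^ 2 / (16 * M)), by positivity,
    lt_min (by linarith [h.pos]) (by positivity), (min_le_left _ _).trans (by linarith [h.pos]),
    fun z hz => ?_⟩
  have hz1 : |ρ z| < κ₀ / 2 := lt_of_lt_of_le hz (min_le_left _ _)
  have hz2 : |ρ z| < c ^ 2 / (16 * M) := lt_of_lt_of_le hz (min_le_right _ _)
  have hs : M * (4 / c * |ρ z|) ≤ c / 4 := by
    rw [lt_div_iff₀ (by positivity)] at hz2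
    have : M * (4 / c * |ρ z|) = (|ρ z| * (16 * M)) / (4 * c) := by field_simp; ring
    rw [this, div_le_iff₀ (by positivity)]
    nlinarith
  rcases abs_cases (ρ z) with ⟨h1, h2⟩ | ⟨h1, h2⟩
  · rw [h1] at hs
    obtain ⟨q, hq1, hq2⟩ := near_aux hd hM hc hML h2 (hcl z hz1.le) hs
    exact ⟨q, hq1, by rw [h1]; exact hq2⟩
  · rw [h1] at hs
    have hfd : ∀ z, fderiv ℝ (fun y => - ρ y) z = - fderiv ℝ ρ z := fun z => fderiv_fun_neg
    obtain ⟨q, hq1, hq2⟩ := near_aux (f := fun y => - ρ y) hd.neg hM hc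
      (fun z w => by
        rw [hfd, hfd]
        have : -fderiv ℝ ρ z - -fderiv ℝ ρ w = -(fderiv ℝ ρ z - fderiv ℝ ρ w) := by abel
        rw [this, norm_neg]
        exact hML z w) (z := z) (by linarith)
      (by rw [hfd, norm_neg]; exact hcl z hz1.le) hs
    exact ⟨q, by simpa using hq1, by rw [h1]; exact hq2⟩

end Pool.Agent.DK.H88
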